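import Mathlib
import Pool.Agent.Helper548.HB.Defs
set_option autoImplicit false

/-! Part A of the project HB: an instance of `GData`, i.e. the amalgam of `V = F(a,c) × Z` and
`PSL(2,Z) = < s, c >` along `< c >`, as a group of permutations of the set of reduced words. -/

namespace Pool.Agent.Helper886.HBA
open Pool.Agent.Helper548.HB

/-- left multiplication on the first entry -/
def ac (v : V) : List V → List V
  | [] => []
  | w :: L => (v * w) :: L

@[simp] theorem ac_nil (v : V) : ac v [] = [] := rfl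
@[simp] theorem ac_cons (v w : V) (L : List V) : ac v (w :: L) = (v * w) :: L := rfl
theorem ac_one (L : List V) : ac 1 L = L := by cases L <;> simp
theorem ac_mul (v w : V) (L : List V) : ac (v * w) L = ac v (ac w L) := by
  cases L <;> simp [mul_assoc]
@[simp] theorem ac_length (v : V) (L : List V) : (ac v L).length = L.length := by
  cases L <;> simp
theorem ac_inv_ac (v : V) (L : List V) : ac v⁻¹ (ac v L) = L := by
  rw [← ac_mul, inv_mul_cancel, ac_one]
theorem ac_ac_inv (v : V) (L : List V) : ac v (ac v⁻¹ L) = L := by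
  rw [← ac_mul, mul_inv_cancel, ac_one]

/-- the forbidden entries -/
def N : Set V := {v | ∃ j : ℤ, j ≤ 1 ∧ v = gc ^ j}

/-- exponent sum -/
noncomputable def ex : V →* Multiplicative ℤ :=
  (FreeGroup.lift fun _ : Bool => Multiplicative.ofAdd (1 : ℤ)).comp
    (MonoidHom.fst H (Multiplicative ℤ))

theorem ex_gc : ex gc = Multiplicative.ofAdd 1 := by
  simp [ex, gc]

theorem gc_inj {i j : ℤ} (h : (gc : V) ^ i = gc ^ j) : i = j := by
  have h1 := congrArg ex h
  rw [map_zpow, map_zpow, ex_gc, ← ofAdd_zsmul, ← ofAdd_zsmul] at h1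
  simpa using h1

theorem N_mul {w : V} (h : gc * w ∈ N) : w ∈ N := by
  obtain ⟨j, hj, h⟩ := h
  refine ⟨j - 1, by omega, ?_⟩
  rw [zpow_sub_one, ← h]
  have : gc * w = w * gc := by
    have hw : w = gc⁻¹ * gc ^ j := by rw [← h]; group
    rw [hw]; group
  rw [this]; group

theorem gcgc_not : gc * gc ∉ N := by
  rintro ⟨j, hj, h⟩
  have h2 : (gc : V) ^ (2 : ℤ) = gc ^ j := by rw [← h]; rfl
  have := gc_inj h2
  omega

theorem one_mem : (1 : V) ∈ N := ⟨0, by norm_num, by simp⟩
theorem gc_mem : (gc : V) ∈ N := ⟨1, by norm_num, by simp⟩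
theorem neg_mem (m : ℕ) : (gc : V) ^ (-(m : ℤ)) ∈ N := ⟨-(m : ℤ), by omega, rfl⟩

/-- all entries are allowed -/
def Red (L : List V) : Prop := ∀ w ∈ L, w ∉ N

theorem red_nil : Red [] := by intro w hw; simp at hw
theorem red_cons {v : V} {L : List V} : Red (v :: L) ↔ v ∉ N ∧ Red L := by
  simp [Red]

theorem red_ac {L : List V} (h : Red L) : Red (ac gc L) := by
  cases L with
  | nil => exact red_nil
  | cons w L =>
    rw [red_cons] at h
    rw [ac_cons, red_cons]
    exact ⟨fun h' => h.1 (N_mul h'), h.2⟩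

/-- the word of `s c^{-m} s L` -/
def fm : ℕ → List V → List V
  | 0, L => L
  | m + 1, L => gc :: ac gc (fm m L)

open Classical in
/-- the action of `s` -/
noncomputable def sg : List V → List V
  | [] => [1]
  | v :: L =>
    if v = gc then ac gc⁻¹ (sg (ac gc⁻¹ L))
    else if h : ∃ m : ℕ, v = gc ^ (-(m : ℤ)) then fm h.choose L
    else 1 :: v :: L
termination_by L => L.length
decreasing_by simp

theorem sg_nil : sg [] = [1] := by rw [sg]
theorem sg_c (L : List V) : sg (gc :: L) = ac gc⁻¹ (sg (ac gc⁻¹ L)) := by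
  rw [sg, if_pos rfl]
theorem sg_neg (m : ℕ) (L : List V) : sg (gc ^ (-(m : ℤ)) :: L) = fm m L := by
  have h1 : (gc : V) ^ (-(m : ℤ)) ≠ gc := by
    intro h
    have h2 : (gc : V) ^ (-(m : ℤ)) = gc ^ (1 : ℤ) := by rw [h, zpow_one]
    have := gc_inj h2
    omega
  have h2 : ∃ k : ℕ, (gc : V) ^ (-(m : ℤ)) = gc ^ (-(k : ℤ)) := ⟨m, rfl⟩
  rw [sg, if_neg h1, dif_pos h2]
  have h3 := gc_inj h2.choose_spec
  have h4 : h2.choose = m := by omega
  rw [h4]
theorem sg_one (L : List V) : sg (1 :: L) = L := by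
  have := sg_neg 0 L
  simpa [fm] using this
theorem sg_not {v : V} (hv : v ∉ N) (L : List V) : sg (v :: L) = 1 :: v :: L := by
  have h1 : v ≠ gc := fun h => hv (h ▸ gc_mem)
  have h2 : ¬ ∃ k : ℕ, v = gc ^ (-(k : ℤ)) := by
    rintro ⟨k, hk⟩
    exact hv (hk ▸ neg_mem k)
  rw [sg, if_neg h1, dif_neg h2]
theorem sg_red {L : List V} (h : Red L) : sg L = 1 :: L := by
  cases L with
  | nil => exact sg_nil
  | cons v L => exact sg_not (red_cons.1 h).1 L

theorem red_ac_fm {L : List V} (h : Red L) (m : ℕ) : Red (ac gc (fm m L)) := by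
  induction m with
  | zero => exact red_ac h
  | succ m ih =>
    rw [fm, ac_cons, red_cons]
    exact ⟨gcgc_not, ih⟩

theorem sg_fm {L : List V} (h : Red L) (m : ℕ) : sg (fm m L) = gc ^ (-(m : ℤ)) :: L := by
  induction m with
  | zero => simpa [fm] using sg_red h
  | succ m ih =>
    rw [fm, sg_c, ac_inv_ac, ih, ac_cons]
    congr 1
    rw [← zpow_neg_one, ← zpow_add]
    congr 1
    push_cast
    ring

/-- reduced words -/
def Ok (X : List V) : Prop := Red X.tail

theorem ok_fm {L : List V} (h : Red L) (m : ℕ) : Ok (fm m L) := by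
  cases m with
  | zero =>
    cases L with
    | nil => exact red_nil
    | cons v L => exact (red_cons.1 h).2
  | succ m => exact red_ac_fm h m

theorem ok_ac {X : List V} (h : Ok X) (v : V) : Ok (ac v X) := by
  cases X with
  | nil => exact h
  | cons w X => exact h

theorem cls_c : ∀ (L : List V), Red L → ∃ (m : ℕ) (L₀ : List V), Red L₀ ∧ gc :: L = fm (m + 1) L₀ := by
  intro L
  induction L with
  | nil => intro _; exact ⟨0, [], red_nil, rfl⟩
  | cons w L ih =>
    intro h
    rw [red_cons] at h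
    by_cases h1 : gc⁻¹ * w ∈ N
    · obtain ⟨j, hj, hw⟩ := h1
      have hw' : w = gc ^ (j + 1) := by
        rw [zpow_add_one, ← hw]
        have : w = gc * gc ^ j := by rw [← hw]; group
        rw [hw, this]; group
      have hj1 : j = 1 := by
        by_contra hne
        exact h.1 ⟨j + 1, by omega, hw'⟩
      subst hj1
      have hw2 : w = gc * gc := by rw [hw']; rfl
      obtain ⟨m, L₀, hL₀, hm⟩ := ih h.2
      refine ⟨m + 1, L₀, hL₀, ?_⟩
      rw [fm, ← hm, ac_cons, hw2]
    · refine ⟨0, (gc⁻¹ * w) :: L, red_cons.2 ⟨h1, h.2⟩, ?_⟩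
      simp [fm]

theorem cls {X : List V} (h : Ok X) : ∃ (m : ℕ) (L : List V), Red L ∧
    (X = gc ^ (-(m : ℤ)) :: L ∨ X = fm m L) := by
  cases X with
  | nil => exact ⟨0, [], red_nil, Or.inr rfl⟩
  | cons v L =>
    have hL : Red L := h
    by_cases hv : v ∈ N
    · obtain ⟨j, hj, rfl⟩ := hv
      by_cases hj1 : j = 1
      · subst hj1
        obtain ⟨m, L₀, hL₀, hm⟩ := cls_c L hL
        rw [zpow_one]
        exact ⟨m + 1, L₀, hL₀, Or.inr hm⟩
      · refine ⟨(-j).toNat, L, hL, Or.inl ?_⟩
        congr 2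
        omega
    · exact ⟨0, v :: L, red_cons.2 ⟨hv, hL⟩, Or.inr rfl⟩

theorem ok_sg {X : List V} (h : Ok X) : Ok (sg X) := by
  obtain ⟨m, L, hL, rfl | rfl⟩ := cls h
  · rw [sg_neg]; exact ok_fm hL m
  · rw [sg_fm hL]; exact hL

theorem sg_sg {X : List V} (h : Ok X) : sg (sg X) = X := by
  obtain ⟨m, L, hL, rfl | rfl⟩ := cls h
  · rw [sg_neg, sg_fm hL]
  · rw [sg_fm hL, sg_neg]

theorem sg_rel {X : List V} (h : Ok X) : sg (ac gc (sg X)) = ac gc⁻¹ (sg (ac gc⁻¹ X)) := by
  obtain ⟨m, L, hL, rfl | rfl⟩ := cls h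
  · rw [sg_neg, sg_red (red_ac_fm hL m), ac_cons]
    have h1 : (gc : V)⁻¹ * gc ^ (-(m : ℤ)) = gc ^ (-((m + 1 : ℕ) : ℤ)) := by
      rw [← zpow_neg_one, ← zpow_add]
      congr 1
      push_cast
      ring
    rw [h1, sg_neg, fm, ac_cons, inv_mul_cancel]
  · rw [sg_fm hL]
    cases m with
    | zero => simpa [fm] using sg_c L
    | succ m =>
      have h1 : (gc : V) * gc ^ (-((m + 1 : ℕ) : ℤ)) = gc ^ (-(m : ℤ)) := by
        rw [← zpow_one_add]
        congr 1
        push_cast
        ring
      rw [ac_cons, h1, sg_neg, fm, ac_cons, inv_mul_cancel, sg_one, ac_inv_ac]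

/-! ### edges -/

/-- oriented edges -/
inductive E0 : List V → List V → Prop
  | a (v : V) : E0 [] [v]
  | cons (v : V) {X Y : List V} : E0 X Y → E0 (v :: X) (v :: Y)
  | b (v : V) (j : ℕ) : E0 [v] ((v * gc) :: List.replicate j (gc * gc))

/-- edges -/
def E (X Y : List V) : Prop := E0 X Y ∨ E0 Y X

theorem E.symm {X Y : List V} (h : E X Y) : E Y X := Or.symm h

theorem E0.ac {X Y : List V} (h : E0 X Y) (v : V) : E0 (ac v X) (ac v Y) := by
  cases h with
  | a w => exact E0.a _
  | cons w h => exact E0.cons _ h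
  | b w j =>
    rw [ac_cons, ac_cons, ← mul_assoc]
    exact E0.b _ j

theorem E.ac {X Y : List V} (h : E X Y) (v : V) : E (ac v X) (ac v Y) :=
  h.imp (fun h => h.ac v) (fun h => h.ac v)

theorem E.fm {X Y : List V} (h : E X Y) (m : ℕ) : E (fm m X) (fm m Y) := by
  induction m with
  | zero => exact h
  | succ m ih => exact (ih.ac gc).imp (fun h => E0.cons gc h) (fun h => E0.cons gc h)

theorem fm_succ' (m : ℕ) (L : List V) : fm (m + 1) L = fm m (gc :: ac gc L) := by
  induction m with
  | zero => rfl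
  | succ m ih => rw [fm, ih, fm]

theorem fm_nil (m : ℕ) : fm (m + 1) [] = gc :: List.replicate m (gc * gc) := by
  induction m with
  | zero => rfl
  | succ m ih => rw [fm, ih, ac_cons, List.replicate_succ]

theorem tri (v : V) : v ∉ N ∨ v = gc ∨ ∃ m : ℕ, v = gc ^ (-(m : ℤ)) := by
  by_cases hv : v ∈ N
  · right
    obtain ⟨j, hj, rfl⟩ := hv
    by_cases hj1 : j = 1
    · left; subst hj1; exact zpow_one _
    · right
      refine ⟨(-j).toNat, ?_⟩
      congr 1
      omega
  · exact Or.inl hv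

theorem mul_gc_not {v : V} (h : v ∉ N) : v * gc ∉ N := by
  rintro ⟨j, hj, hj'⟩
  refine h ⟨j - 1, by omega, ?_⟩
  rw [zpow_sub_one, ← hj', mul_inv_cancel_right]

theorem E_sg : ∀ (n : ℕ) (X Y : List V), X.length ≤ n → Ok X → Ok Y → E0 X Y →
    E (sg X) (sg Y) := by
  intro n
  induction n with
  | zero =>
    intro X Y hX _ _ h
    cases h with
    | a v =>
      rcases tri v with hv | rfl | ⟨m, rfl⟩
      · rw [sg_nil, sg_not hv]; exact Or.inl (E0.cons 1 (E0.a v))
      · rw [sg_nil, sg_c, ac_nil, sg_nil, ac_cons, mul_one]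
        right
        have := E0.b gc⁻¹ 0
        rwa [inv_mul_cancel] at this
      · rw [sg_nil, sg_neg]
        cases m with
        | zero => exact Or.inr (E0.a 1)
        | succ m =>
          rw [fm_nil]
          left
          have := E0.b 1 m
          rwa [one_mul] at this
    | cons v h => simp at hX
    | b v j => simp at hX
  | succ n ih =>
    intro X Y hX oX oY h
    cases h with
    | a v => exact ih [] [v] (by simp) oX oY (E0.a v)
    | @cons v X Y h =>
      rcases tri v with hv | rfl | ⟨m, rfl⟩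
      · rw [sg_not hv, sg_not hv]; exact Or.inl (E0.cons 1 (E0.cons v h))
      · rw [sg_c, sg_c]
        apply E.ac
        refine ih _ _ (by simpa using hX) ?_ ?_ (h.ac _)
        · apply ok_ac
          cases X with
          | nil => exact red_nil
          | cons x X => exact (red_cons.1 oX).2
        · apply ok_ac
          cases Y with
          | nil => exact red_nil
          | cons x X => exact (red_cons.1 oY).2
      · rw [sg_neg, sg_neg]
        exact E.fm (Or.inl h) m
    | b v j =>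
      rcases tri v with hv | rfl | ⟨m, rfl⟩
      · rw [sg_not hv, sg_not (mul_gc_not hv)]
        exact Or.inl (E0.cons 1 (E0.b v j))
      · rw [sg_c, ac_nil, sg_nil, ac_cons, mul_one, sg_not gcgc_not]
        left
        have := E0.b gc⁻¹ (j + 1)
        rwa [inv_mul_cancel, List.replicate_succ] at this
      · rw [sg_neg]
        cases m with
        | zero =>
          have h1 : (gc : V) ^ (-((0 : ℕ) : ℤ)) * gc = gc := by simp
          rw [h1, ← fm_nil, sg_fm red_nil]
          exact Or.inl (E0.a _)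
        | succ m =>
          have h1 : (gc : V) ^ (-((m + 1 : ℕ) : ℤ)) * gc = gc ^ (-(m : ℤ)) := by
            rw [← zpow_add_one]
            congr 1
            push_cast
            ring
          rw [h1, sg_neg, fm_succ']
          apply E.fm
          rw [ac_nil]
          cases j with
          | zero => exact Or.inr (E0.a gc)
          | succ j => exact Or.inl (E0.b gc j)

theorem E.sg {X Y : List V} (h : E X Y) (hX : Ok X) (hY : Ok Y) : E (sg X) (sg Y) := by
  rcases h with h | h
  · exact E_sg _ X Y le_rfl hX hY h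
  · exact (E_sg _ Y X le_rfl hY hX h).symm

/-! ### the group -/

/-- the set of reduced words (the vertices of the coned-off graph) -/
abbrev Om : Type := {X : List V // Ok X}

/-- the action of V -/
def vp (v : V) : Equiv.Perm Om where
  toFun X := ⟨ac v X.1, ok_ac X.2 v⟩
  invFun X := ⟨ac v⁻¹ X.1, ok_ac X.2 v⁻¹⟩
  left_inv X := Subtype.ext (ac_inv_ac v X.1)
  right_inv X := Subtype.ext (ac_ac_inv v X.1)

/-- the action of V, as a homomorphism -/
def iv : V →* Equiv.Perm Om where
  toFun := vp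
  map_one' := by
    ext X : 2
    exact ac_one X.1
  map_mul' v w := by
    ext X : 2
    exact ac_mul v w X.1

/-- the action of s -/
noncomputable def sp : Equiv.Perm Om where
  toFun X := ⟨sg X.1, ok_sg X.2⟩
  invFun X := ⟨sg X.1, ok_sg X.2⟩
  left_inv X := Subtype.ext (sg_sg X.2)
  right_inv X := Subtype.ext (sg_sg X.2)

/-- the group -/
def Gp : Subgroup (Equiv.Perm Om) := Subgroup.closure (Set.range iv ∪ {sp})

/-- the inclusion of V -/
def iG : V →* Gp :=
  iv.codRestrict Gp fun v => Subgroup.subset_closure (Or.inl ⟨v, rfl⟩)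

/-- the involution -/
noncomputable def sG : Gp := ⟨sp, Subgroup.subset_closure (Or.inr rfl)⟩

/-- the base point -/
def o : Om := ⟨[], red_nil⟩

/-- first entry -/
def hd : List V → V
  | [] => 1
  | v :: _ => v

theorem iG_apply (v : V) (X : Om) : ((iG v).1 X).1 = ac v X.1 := rfl
theorem sG_apply (X : Om) : (sG.1 X).1 = sg X.1 := rfl
theorem iG_o (v : V) : (iG v).1 o = o := rfl
theorem sG_o : (sG.1 o).1 = [1] := sg_nil

theorem iG_inj : Function.Injective iG := by
  intro v w h
  have h1 : ((iG v).1 ⟨[1], red_nil⟩).1 = ((iG w).1 ⟨[1], red_nil⟩).1 := by rw [h]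
  rw [iG_apply, iG_apply] at h1
  simpa using h1

theorem sG_sG : sG * sG = 1 := by
  apply Subtype.ext
  ext X : 2
  exact sg_sg X.2

theorem sG_rel : sG * iG gc * sG = iG gc⁻¹ * sG * iG gc⁻¹ := by
  apply Subtype.ext
  ext X : 2
  exact sg_rel X.2

theorem gen : Subgroup.closure (Set.range iG ∪ {sG}) = ⊤ := by
  have h : (Set.range iG ∪ {sG} : Set Gp) = (↑) ⁻¹' (Set.range iv ∪ {sp} : Set (Equiv.Perm Om)) := by
    ext x
    constructor
    · rintro (⟨v, rfl⟩ | rfl)
      · exact Or.inl ⟨v, rfl⟩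
      · exact Or.inr rfl
    · rintro (⟨v, hv⟩ | hs)
      · exact Or.inl ⟨v, Subtype.ext hv⟩
      · exact Or.inr (Subtype.ext hs)
  rw [h]
  exact Subgroup.closure_closure_coe_preimage

/-- the coset of a word -/
noncomputable def eq : List V → Gp ⧸ iG.range
  | [] => ((1 : Gp) : Gp ⧸ iG.range)
  | v :: L => (iG v * sG) • eq L

theorem eq_ac (v : V) (X : List V) : eq (ac v X) = iG v • eq X := by
  cases X with
  | nil =>
    change ((1 : Gp) : Gp ⧸ iG.range) = ((iG v * 1 : Gp) : Gp ⧸ iG.range)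
    rw [QuotientGroup.eq, inv_one, one_mul, mul_one]
    exact ⟨v, rfl⟩
  | cons w X =>
    rw [ac_cons, eq, eq, map_mul, mul_assoc, mul_smul]

theorem sG_rel' : iG gc * sG * iG gc = sG * (iG gc)⁻¹ * sG := by
  have h := congrArg (·⁻¹) sG_rel
  have hs : sG⁻¹ = sG := inv_eq_of_mul_eq_one_left sG_sG
  simp only [mul_inv_rev, hs, map_inv, inv_inv] at h
  rw [← mul_assoc, ← mul_assoc] at h
  exact h.symm

theorem eq_fm (m : ℕ) (L : List V) : eq (fm m L) = (sG * iG (gc ^ (-(m : ℤ))) * sG) • eq L := by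
  induction m with
  | zero =>
    have : (gc : V) ^ (-((0 : ℕ) : ℤ)) = 1 := by simp
    rw [this, map_one, mul_one, sG_sG, one_smul, fm]
  | succ m ih =>
    rw [fm, eq, eq_ac, ih, smul_smul, smul_smul]
    congr 1
    have h1 : (gc : V) ^ (-((m + 1 : ℕ) : ℤ)) = gc⁻¹ * gc ^ (-(m : ℤ)) := by
      rw [← zpow_neg_one, ← zpow_add]
      congr 1
      push_cast
      ring
    have h2 : iG gc * sG * iG gc * (sG * iG (gc ^ (-(m : ℤ))) * sG) =
        (iG gc * sG * iG gc) * sG * iG (gc ^ (-(m : ℤ))) * sG := by group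
    rw [h2, sG_rel', h1, map_mul, map_inv]
    have h3 : sG * (iG gc)⁻¹ * sG * sG = sG * (iG gc)⁻¹ * (sG * sG) := by group
    rw [h3, sG_sG]
    group

theorem eq_sg : ∀ (n : ℕ) (X : List V), X.length ≤ n → eq (sg X) = sG • eq X := by
  intro n
  induction n with
  | zero =>
    intro X hX
    have : X = [] := by simpa using hX
    subst this
    rw [sg_nil]
    change (iG 1 * sG) • eq [] = _
    rw [map_one, one_mul]
  | succ n ih =>
    intro X hX
    cases X with
    | nil => exact ih [] (by simp)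
    | cons v X =>
      rcases tri v with hv | rfl | ⟨m, rfl⟩
      · rw [sg_not hv, eq, map_one, one_mul]
      · rw [sg_c, eq_ac, ih _ (by simpa using hX), eq_ac, eq, smul_smul, smul_smul, smul_smul,
          ← mul_assoc, ← sG_rel, mul_assoc]
      · rw [sg_neg, eq_fm, eq, smul_smul, mul_assoc]

theorem eq_smul (g : Gp) (X : Om) : eq (g.1 X).1 = g • eq X.1 := by
  obtain ⟨x, hx⟩ := g
  induction hx using Subgroup.closure_induction generalizing X with
  | mem x hx =>
    rcases hx with ⟨v, rfl⟩ | rfl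
    · exact eq_ac v X.1
    · exact eq_sg _ X.1 le_rfl
  | one => exact (one_smul _ _).symm
  | mul x y hx hy ihx ihy =>
    have h1 := ihx (y X)
    have h2 := ihy X
    change eq (x (y X)).1 = (⟨x, hx⟩ * ⟨y, hy⟩ : Gp) • eq X.1
    rw [mul_smul, ← h2, ← h1]
  | inv x hx ih =>
    have h1 := ih (x⁻¹ X)
    change eq (x⁻¹ X).1 = (⟨x, hx⟩⁻¹ : Gp) • eq X.1
    rw [eq_inv_smul_iff, ← h1]
    simp

theorem eq_o (g : Gp) : eq (g.1 o).1 = (g : Gp ⧸ iG.range) := by
  rw [eq_smul]
  change g • ((1 : Gp) : Gp ⧸ iG.range) = _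
  change ((g * 1 : Gp) : Gp ⧸ iG.range) = _
  rw [mul_one]

theorem stab {g : Gp} (h : g.1 o = o) : g ∈ iG.range := by
  have h1 := eq_o g
  rw [h] at h1
  change ((1 : Gp) : Gp ⧸ iG.range) = _ at h1
  rw [QuotientGroup.eq, inv_one, one_mul] at h1
  exact h1

theorem E_smul (g : Gp) (X Y : Om) (h : E X.1 Y.1) : E (g.1 X).1 (g.1 Y).1 := by
  obtain ⟨x, hx⟩ := g
  have key : ∀ X Y : Om, E (x X).1 (x Y).1 ↔ E X.1 Y.1 := by
    clear h X Y
    induction hx using Subgroup.closure_induction with
    | mem x hx =>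
      rcases hx with ⟨v, rfl⟩ | rfl
      · intro X Y
        constructor
        · intro h
          have h1 := E.ac h v⁻¹
          change E (ac v⁻¹ (ac v X.1)) (ac v⁻¹ (ac v Y.1)) at h1
          rwa [ac_inv_ac, ac_inv_ac] at h1
        · intro h
          exact E.ac h v
      · intro X Y
        constructor
        · intro h
          have h1 := E.sg h (ok_sg X.2) (ok_sg Y.2)
          change E (HBA.sg (HBA.sg X.1)) (HBA.sg (HBA.sg Y.1)) at h1
          rwa [sg_sg X.2, sg_sg Y.2] at h1
        · intro h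
          exact E.sg h X.2 Y.2
    | one => intro X Y; exact Iff.rfl
    | mul x y hx hy ihx ihy => intro X Y; exact (ihx _ _).trans (ihy _ _)
    | inv x hx ih =>
      intro X Y
      have := ih (x⁻¹ X) (x⁻¹ Y)
      rw [← this]
      simp
  exact (key X Y).2 h

theorem step_aux {g : Gp} {v : V} {X : List V} (h1 : (g.1 o).1 = [v])
    (_h2 : ((g * sG).1 o).1 = X) : ∃ w : V, g = iG v * sG * iG w := by
  have h3 : (iG v * sG)⁻¹ * g ∈ iG.range := by
    rw [← QuotientGroup.eq, ← eq_o, ← eq_o, h1]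
    change eq (ac v (sg [])) = _
    rw [sg_nil, ac_cons, mul_one]
  obtain ⟨w, hw⟩ := h3
  refine ⟨w, ?_⟩
  rw [hw]
  group

theorem head_step (g : Gp) (h1 : g ∉ iG.range) (h2 : g * sG ∉ iG.range) :
    hd ((g * sG).1 o).1 = hd (g.1 o).1 ∨
    (hd ((g * sG).1 o).1 = hd (g.1 o).1 * gc ∧ ∃ v : V, g = iG (hd (g.1 o).1) * sG * iG v) ∨
    (hd (g.1 o).1 = hd ((g * sG).1 o).1 * gc ∧
      ∃ v : V, g * sG = iG (hd ((g * sG).1 o).1) * sG * iG v) := by
  have n1 : (g.1 o).1 ≠ [] := fun h => h1 (stab (Subtype.ext h))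
  have n2 : ((g * sG).1 o).1 ≠ [] := fun h => h2 (stab (Subtype.ext h))
  have hE : E (g.1 o).1 ((g * sG).1 o).1 := by
    refine E_smul g o (sG.1 o) ?_
    rw [sG_o]
    exact Or.inl (E0.a 1)
  generalize hX : (g.1 o).1 = X at *
  generalize hY : ((g * sG).1 o).1 = Y at *
  rcases hE with h | h
  · cases h with
    | a v => exact absurd rfl n1
    | cons v h => exact Or.inl rfl
    | b v j => exact Or.inr (Or.inl ⟨rfl, step_aux hX hY⟩)
  · cases h with
    | a v => exact absurd rfl n2
    | cons v h => exact Or.inl rfl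
    | b v j =>
      refine Or.inr (Or.inr ⟨rfl, ?_⟩)
      refine step_aux (g := g * sG) hY rfl

/-- The amalgam, as an instance of `GData`. -/
noncomputable def theGData : GData where
  G := Gp
  ι := iG
  s := sG
  head g := hd (g.1 o).1
  ι_inj := iG_inj
  s_mul_s := sG_sG
  scs := sG_rel
  gen := gen
  s_not_mem := by
    rintro ⟨v, hv⟩
    have h1 := sG_o
    rw [← hv, iG_o] at h1
    exact absurd h1 (by simp [o])
  head_s := by
    rw [sG_o]; rfl
  head_left := by
    intro v g hg
    have n1 : (g.1 o).1 ≠ [] := fun h => hg (stab (Subtype.ext h))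
    change hd (ac v (g.1 o).1) = _
    cases h : (g.1 o).1 with
    | nil => exact absurd h n1
    | cons w L => rfl
  head_right := by
    intro v g _
    rfl
  head_step := head_step
  head_s_mul := by
    intro g hg hh
    have n1 : (g.1 o).1 ≠ [] := fun h => hg (stab (Subtype.ext h))
    change hd (sg (g.1 o).1) = 1
    cases h : (g.1 o).1 with
    | nil => exact absurd h n1
    | cons w L =>
      rw [h] at hh
      have hw : w ∉ N := by
        rintro ⟨j, hj, rfl⟩
        exact hh j hj rfl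
      rw [sg_not hw]
      rfl

theorem exists_gdata : Nonempty GData := ⟨theGData⟩

end Pool.Agent.Helper886.HBA
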